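import Mathlib

namespace Pool.Agent.Helper28.PC

/-! ### The group -/

abbrev F := ZMod 3

/-- `SL(2,3)`. -/
@[ext]
structure S where
  a : F
  b : F
  c : F
  d : F
  hd : a * d - b * c = 1

namespace S

instance : DecidableEq S := fun x y =>
  decidable_of_iff (x.a = y.a ∧ x.b = y.b ∧ x.c = y.c ∧ x.d = y.d) (by
    constructor
    · rintro ⟨h1, h2, h3, h4⟩; exact S.ext h1 h2 h3 h4
    · rintro rfl; exact ⟨rfl, rfl, rfl, rfl⟩)

instance : Mul S := ⟨fun x y => ⟨x.a * y.a + x.b * y.c, x.a * y.b + x.b * y.d,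
  x.c * y.a + x.d * y.c, x.c * y.b + x.d * y.d, by
    linear_combination (y.a * y.d - y.b * y.c) * x.hd + y.hd⟩⟩

instance : One S := ⟨⟨1, 0, 0, 1, by decide⟩⟩

instance : Inv S := ⟨fun x => ⟨x.d, -x.b, -x.c, x.a, by linear_combination x.hd⟩⟩

@[simp] lemma mul_a (x y : S) : (x * y).a = x.a * y.a + x.b * y.c := rfl
@[simp] lemma mul_b (x y : S) : (x * y).b = x.a * y.b + x.b * y.d := rfl
@[simp] lemma mul_c (x y : S) : (x * y).c = x.c * y.a + x.d * y.c := rfl
@[simp] lemma mul_d (x y : S) : (x * y).d = x.c * y.b + x.d * y.d := rfl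
@[simp] lemma one_a : (1 : S).a = 1 := rfl
@[simp] lemma one_b : (1 : S).b = 0 := rfl
@[simp] lemma one_c : (1 : S).c = 0 := rfl
@[simp] lemma one_d : (1 : S).d = 1 := rfl
@[simp] lemma inv_a (x : S) : (x⁻¹).a = x.d := rfl
@[simp] lemma inv_b (x : S) : (x⁻¹).b = -x.b := rfl
@[simp] lemma inv_c (x : S) : (x⁻¹).c = -x.c := rfl
@[simp] lemma inv_d (x : S) : (x⁻¹).d = x.a := rfl

instance : Group S := Group.ofLeftAxioms
  (by intro x y z; ext <;> simp <;> ring)
  (by intro x; ext <;> simp)
  (by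
    intro x
    ext
    · simp; linear_combination x.hd
    · simp; ring
    · simp; ring
    · simp; linear_combination x.hd)

/-- The 24 elements as a subtype. -/
def equivSub : {p : F × F × F × F // p.1 * p.2.2.2 - p.2.1 * p.2.2.1 = 1} ≃ S where
  toFun p := ⟨p.1.1, p.1.2.1, p.1.2.2.1, p.1.2.2.2, p.2⟩
  invFun x := ⟨(x.a, x.b, x.c, x.d), x.hd⟩
  left_inv _ := rfl
  right_inv _ := rfl

instance : Fintype S := Fintype.ofEquiv _ equivSub

lemma card_S : Fintype.card S = 24 := by decide +kernel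

end S

/-- The cyclic group of order 4. -/
abbrev C4 := Multiplicative (ZMod 4)

/-- Entries of the matrix of `j ^ k`, `j = !![1, 1; 1, -1]`. -/
def pp (k : C4) : F := ![1, 1, -1, -1] (Multiplicative.toAdd k : Fin 4)
def pq (k : C4) : F := ![0, 1, 0, -1] (Multiplicative.toAdd k : Fin 4)
def pr (k : C4) : F := ![0, 1, 0, -1] (Multiplicative.toAdd k : Fin 4)
def ps (k : C4) : F := ![1, -1, -1, 1] (Multiplicative.toAdd k : Fin 4)
/-- The multiplier. -/
def mu (k : C4) : F := ![1, -1, 1, -1] (Multiplicative.toAdd k : Fin 4)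

lemma pp_mul : ∀ k l : C4, pp (k * l) = pp k * pp l + pq k * pr l := by decide +kernel
lemma pq_mul : ∀ k l : C4, pq (k * l) = pp k * pq l + pq k * ps l := by decide +kernel
lemma pr_mul : ∀ k l : C4, pr (k * l) = pr k * pp l + ps k * pr l := by decide +kernel
lemma ps_mul : ∀ k l : C4, ps (k * l) = pr k * pq l + ps k * ps l := by decide +kernel
lemma mu_mul : ∀ k l : C4, mu (k * l) = mu k * mu l := by decide +kernel

lemma rel1 : ∀ k : C4, pp k * pp k + pr k * pr k = mu k := by decide +kernel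
lemma rel2 : ∀ k : C4, pq k * pq k + ps k * ps k = mu k := by decide +kernel
lemma rel3 : ∀ k : C4, pp k * pq k + pr k * ps k = 0 := by decide +kernel
lemma mu_sq : ∀ k : C4, mu k * mu k = 1 := by decide +kernel
lemma pp_one : pp 1 = 1 := by decide
lemma pq_one : pq 1 = 0 := by decide
lemma pr_one : pr 1 = 0 := by decide
lemma ps_one : ps 1 = 1 := by decide
lemma mu_one : mu 1 = 1 := by decide

/-- `W = N ⊗ M`, pairs of vectors of `N = F ^ 2`. -/
abbrev W := (F × F) × (F × F)

/-- The action of `SL(2,3) × C4` on `W`. -/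
def act (h : S) (k : C4) (w : W) : W :=
  ((pp k * (h.a * w.1.1 + h.b * w.1.2) + pq k * (h.a * w.2.1 + h.b * w.2.2),
    pp k * (h.c * w.1.1 + h.d * w.1.2) + pq k * (h.c * w.2.1 + h.d * w.2.2)),
   (pr k * (h.a * w.1.1 + h.b * w.1.2) + ps k * (h.a * w.2.1 + h.b * w.2.2),
    pr k * (h.c * w.1.1 + h.d * w.1.2) + ps k * (h.c * w.2.1 + h.d * w.2.2)))

lemma act_add (h : S) (k : C4) (w w' : W) : act h k (w + w') = act h k w + act h k w' := by
  ext <;> simp [act] <;> ring

lemma act_zero (h : S) (k : C4) : act h k 0 = 0 := by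
  ext <;> simp [act]

lemma act_neg (h : S) (k : C4) (w : W) : act h k (-w) = -act h k w := by
  ext <;> simp [act] <;> ring

lemma act_one (w : W) : act 1 1 w = w := by
  ext <;> simp [act, pp_one, pq_one, pr_one, ps_one]

lemma act_mul (h h' : S) (k k' : C4) (w : W) :
    act (h * h') (k * k') w = act h k (act h' k' w) := by
  ext
  · simp [act, pp_mul, pq_mul, pr_mul, ps_mul]; ring
  · simp [act, pp_mul, pq_mul, pr_mul, ps_mul]; ring
  · simp [act, pp_mul, pq_mul, pr_mul, ps_mul]; ring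
  · simp [act, pp_mul, pq_mul, pr_mul, ps_mul]; ring

/-- Half the symplectic form on `W`. -/
def B (w w' : W) : F :=
  2 * ((w.1.1 * w'.1.2 - w.1.2 * w'.1.1) + (w.2.1 * w'.2.2 - w.2.2 * w'.2.1))

lemma B_add_left (w w' x : W) : B (w + w') x = B w x + B w' x := by simp [B]; ring
lemma B_add_right (x w w' : W) : B x (w + w') = B x w + B x w' := by simp [B]; ring
lemma B_neg_left (w x : W) : B (-w) x = -B w x := by simp [B]; ring
lemma B_neg_right (x w : W) : B x (-w) = -B x w := by simp [B]; ring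
lemma B_self (w : W) : B w w = 0 := by simp only [B]; ring
lemma B_swap (w x : W) : B x w = -B w x := by simp [B]; ring
lemma B_zero_left (x : W) : B 0 x = 0 := by simp [B]
lemma B_zero_right (x : W) : B x 0 = 0 := by simp [B]

lemma B_act (h : S) (k : C4) (w w' : W) : B (act h k w) (act h k w') = mu k * B w w' := by
  have e : B (act h k w) (act h k w') = 2 * (h.a * h.d - h.b * h.c) *
      ((pp k * pp k + pr k * pr k) * (w.1.1 * w'.1.2 - w.1.2 * w'.1.1)
        + (pq k * pq k + ps k * ps k) * (w.2.1 * w'.2.2 - w.2.2 * w'.2.1)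
        + (pp k * pq k + pr k * ps k) * ((w.1.1 * w'.2.2 - w.1.2 * w'.2.1)
          + (w.2.1 * w'.1.2 - w.2.2 * w'.1.1))) := by
    simp only [B, act]
    ring
  rw [e, rel1, rel2, rel3, h.hd]
  simp only [B]
  ring

/-- The group `G = V ⋊ (SL(2,3) × C4)` of order `23328`. -/
@[ext]
structure G where
  w : W
  z : F
  h : S
  k : C4

namespace G

instance : DecidableEq G := fun x y =>
  decidable_of_iff (x.w = y.w ∧ x.z = y.z ∧ x.h = y.h ∧ x.k = y.k) (by
    constructor
    · rintro ⟨h1, h2, h3, h4⟩; exact G.ext h1 h2 h3 h4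
    · rintro rfl; exact ⟨rfl, rfl, rfl, rfl⟩)

instance : Mul G := ⟨fun x y => ⟨x.w + act x.h x.k y.w,
  x.z + mu x.k * y.z + B x.w (act x.h x.k y.w), x.h * y.h, x.k * y.k⟩⟩

instance : One G := ⟨⟨0, 0, 1, 1⟩⟩

instance : Inv G := ⟨fun x => ⟨-act x.h⁻¹ x.k⁻¹ x.w, -(mu x.k⁻¹ * x.z), x.h⁻¹, x.k⁻¹⟩⟩

@[simp] lemma mul_w (x y : G) : (x * y).w = x.w + act x.h x.k y.w := rfl
@[simp] lemma mul_z (x y : G) :
    (x * y).z = x.z + mu x.k * y.z + B x.w (act x.h x.k y.w) := rfl
@[simp] lemma mul_h (x y : G) : (x * y).h = x.h * y.h := rfl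
@[simp] lemma mul_k (x y : G) : (x * y).k = x.k * y.k := rfl
@[simp] lemma one_w : (1 : G).w = 0 := rfl
@[simp] lemma one_z : (1 : G).z = 0 := rfl
@[simp] lemma one_h : (1 : G).h = 1 := rfl
@[simp] lemma one_k : (1 : G).k = 1 := rfl
@[simp] lemma inv_w (x : G) : (x⁻¹).w = -act x.h⁻¹ x.k⁻¹ x.w := rfl
@[simp] lemma inv_z (x : G) : (x⁻¹).z = -(mu x.k⁻¹ * x.z) := rfl
@[simp] lemma inv_h (x : G) : (x⁻¹).h = x.h⁻¹ := rfl
@[simp] lemma inv_k (x : G) : (x⁻¹).k = x.k⁻¹ := rfl

instance : Group G := Group.ofLeftAxioms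
  (by
    intro x y t
    refine G.ext ?_ ?_ ?_ ?_
    · simp only [mul_w, mul_h, mul_k, act_add, act_mul, add_assoc]
    · simp only [mul_w, mul_z, mul_h, mul_k, act_add, act_mul, mu_mul, B_add_left, B_add_right,
        B_act]
      ring
    · simp only [mul_h, mul_assoc]
    · simp only [mul_k, mul_assoc])
  (by
    intro x
    refine G.ext ?_ ?_ ?_ ?_
    · simp [act_one]
    · simp [mu_one, B_zero_left]
    · simp
    · simp)
  (by
    intro x
    refine G.ext ?_ ?_ ?_ ?_
    · simp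
    · simp only [mul_z, inv_z, inv_w, inv_h, inv_k, B_neg_left, B_self, one_z]
      ring
    · simp
    · simp)

/-- `G` as a product. -/
def equivProd : (W × F × S × C4) ≃ G where
  toFun p := ⟨p.1, p.2.1, p.2.2.1, p.2.2.2⟩
  invFun x := (x.w, x.z, x.h, x.k)
  left_inv _ := rfl
  right_inv _ := rfl

instance : Fintype G := Fintype.ofEquiv _ equivProd

lemma card_G : Fintype.card G = 23328 := by
  rw [← Fintype.card_congr equivProd]
  simp only [Fintype.card_prod, S.card_S, ZMod.card]
  rfl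

end G


/-! ### The Weil representation of degree three, unnormalised, over the Eisenstein integers -/

/-- The Eisenstein integers. -/
abbrev E := QuadraticAlgebra ℤ (-1) (-1)

/-- The additive character `t ↦ ω ^ t`. -/
def lamE (t : F) : E := ![⟨1, 0⟩, ⟨0, 1⟩, ⟨-1, -1⟩] (t : Fin 3)

lemma lamE_add : ∀ s t : F, lamE (s + t) = lamE s * lamE t := by decide +kernel

lemma lamE_zero : lamE 0 = 1 := by decide +kernel

/-- Entries of the unnormalised Weil operators. -/
def KE (a b c d : F) (x y : F) : E :=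
  if b = 0 then (if y = d * x then lamE (c * d * x ^ 2) else 0)
  else lamE (b * (d * x ^ 2 + x * y + a * y ^ 2))

/-- Entries of the Heisenberg operators. -/
def DE (u v : F) (x y : F) : E := if y = x + u then lamE (v * x + 2 * u * v) else 0

/-- The inverse of the normalising factor squared. -/
def sE (b : F) : E := if b = 0 then 1 else -3

def chk (a b c d a' b' c' d' : F) : Bool :=
  (List.all [0, 1, 2] fun x => List.all [0, 1, 2] fun y =>
    (KE a b c d x 0 * KE a' b' c' d' 0 y + KE a b c d x 1 * KE a' b' c' d' 1 y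
        + KE a b c d x 2 * KE a' b' c' d' 2 y
      = (KE a b c d 0 0 * KE a' b' c' d' 0 0 + KE a b c d 0 1 * KE a' b' c' d' 1 0
        + KE a b c d 0 2 * KE a' b' c' d' 2 0) *
        KE (a * a' + b * c') (a * b' + b * d') (c * a' + d * c') (c * b' + d * d') x y : Bool))
  && ((KE a b c d 0 0 * KE a' b' c' d' 0 0 + KE a b c d 0 1 * KE a' b' c' d' 1 0
        + KE a b c d 0 2 * KE a' b' c' d' 2 0) ^ 2 * sE (a * b' + b * d') = sE b * sE b' : Bool)

theorem chk_true : ∀ a b c d : F, a * d - b * c = 1 → ∀ a' b' c' d' : F,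
    a' * d' - b' * c' = 1 → chk a b c d a' b' c' d' = true := by decide +kernel

def chkD (u v u' v' : F) : Bool :=
  (List.all [0, 1, 2] fun x => List.all [0, 1, 2] fun y =>
    (DE u v x 0 * DE u' v' 0 y + DE u v x 1 * DE u' v' 1 y + DE u v x 2 * DE u' v' 2 y
      = lamE (2 * (u * v' - v * u')) * DE (u + u') (v + v') x y : Bool))

theorem chkD_true : ∀ u v u' v' : F, chkD u v u' v' = true := by decide +kernel

def chkI (a b c d u v : F) : Bool :=
  (List.all [0, 1, 2] fun x => List.all [0, 1, 2] fun y =>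
    (KE a b c d x 0 * DE u v 0 y + KE a b c d x 1 * DE u v 1 y + KE a b c d x 2 * DE u v 2 y
      = DE (a * u + b * v) (c * u + d * v) x 0 * KE a b c d 0 y
        + DE (a * u + b * v) (c * u + d * v) x 1 * KE a b c d 1 y
        + DE (a * u + b * v) (c * u + d * v) x 2 * KE a b c d 2 y : Bool))

theorem chkI_true : ∀ a b c d : F, a * d - b * c = 1 → ∀ u v : F,
    chkI a b c d u v = true := by decide +kernel

/-- The Weil operator of `h`. -/
def KM (h : S) : Matrix F F E := Matrix.of fun x y => KE h.a h.b h.c h.d x y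

/-- The Heisenberg operator of `u`. -/
def DM (u : F × F) : Matrix F F E := Matrix.of fun x y => DE u.1 u.2 x y

/-- The natural action. -/
def nact (h : S) (u : F × F) : F × F := (h.a * u.1 + h.b * u.2, h.c * u.1 + h.d * u.2)

/-- The factor set. -/
def kap (h h' : S) : E := (KM h * KM h') 0 0

lemma sum_F {M : Type*} [AddCommMonoid M] (f : F → M) : ∑ x : F, f x = f 0 + f 1 + f 2 :=
  Fin.sum_univ_three f

lemma mem_list (x : F) : x ∈ ([0, 1, 2] : List F) := by
  revert x; decide

lemma KM_mul (h h' : S) : KM h * KM h' = kap h h' • KM (h * h') := by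
  have c := chk_true h.a h.b h.c h.d h.hd h'.a h'.b h'.c h'.d h'.hd
  unfold chk at c
  rw [Bool.and_eq_true] at c
  have c1 := c.1
  rw [List.all_eq_true] at c1
  ext x y : 1
  have c2 := c1 x (mem_list x)
  rw [List.all_eq_true] at c2
  have c3 := of_decide_eq_true (c2 y (mem_list y))
  simp only [Matrix.smul_apply, kap, Matrix.mul_apply, sum_F, KM, Matrix.of_apply, smul_eq_mul,
    S.mul_a, S.mul_b, S.mul_c, S.mul_d]
  exact c3

lemma kap_sq (h h' : S) : kap h h' ^ 2 * sE (h * h').b = sE h.b * sE h'.b := by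
  have c := chk_true h.a h.b h.c h.d h.hd h'.a h'.b h'.c h'.d h'.hd
  unfold chk at c
  rw [Bool.and_eq_true] at c
  have c1 := of_decide_eq_true c.2
  simp only [kap, Matrix.mul_apply, sum_F, KM, Matrix.of_apply, S.mul_b]
  exact c1

lemma DM_mul (u u' : F × F) :
    DM u * DM u' = lamE (2 * (u.1 * u'.2 - u.2 * u'.1)) • DM (u + u') := by
  have c := chkD_true u.1 u.2 u'.1 u'.2
  unfold chkD at c
  rw [List.all_eq_true] at c
  ext x y : 1
  have c2 := c x (mem_list x)
  rw [List.all_eq_true] at c2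
  have c3 := of_decide_eq_true (c2 y (mem_list y))
  simp only [Matrix.smul_apply, Matrix.mul_apply, sum_F, DM, Matrix.of_apply, smul_eq_mul,
    Prod.fst_add, Prod.snd_add]
  exact c3

lemma KM_DM (h : S) (u : F × F) : KM h * DM u = DM (nact h u) * KM h := by
  have c := chkI_true h.a h.b h.c h.d h.hd u.1 u.2
  unfold chkI at c
  rw [List.all_eq_true] at c
  ext x y : 1
  have c2 := c x (mem_list x)
  rw [List.all_eq_true] at c2
  have c3 := of_decide_eq_true (c2 y (mem_list y))
  simp only [Matrix.mul_apply, sum_F, KM, DM, Matrix.of_apply, nact]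
  exact c3

/-- The operator of `(u, h)`. -/
def MM (u : F × F) (h : S) : Matrix F F E := DM u * KM h

lemma MM_mul (u u' : F × F) (h h' : S) : MM u h * MM u' h'
    = (lamE (2 * (u.1 * (nact h u').2 - u.2 * (nact h u').1)) * kap h h')
      • MM (u + nact h u') (h * h') := by
  unfold MM
  calc DM u * KM h * (DM u' * KM h') = DM u * (KM h * DM u') * KM h' := by
        simp only [Matrix.mul_assoc]
    _ = (DM u * DM (nact h u')) * (KM h * KM h') := by
        rw [KM_DM]; simp only [Matrix.mul_assoc]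
    _ = _ := by
        rw [DM_mul, KM_mul, Matrix.smul_mul, Matrix.mul_smul, smul_smul]

end Pool.Agent.Helper28.PC
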