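import Pool.Agent.Helper28.PC.Rep

namespace Pool.Agent.Helper28.PC

instance : Fintype T := Subtype.fintype _

/-- The sum of the conjugate character over the elements of odd order of `T` commuting with `y`. -/
noncomputable def Phi (y : G) : ℂ :=
  ∑ t : T, if ((t : G).h * (t : G).h * (t : G).h = 1 ∧ y * (t : G) = (t : G) * y)
    then chi t⁻¹ else 0

/-- The central element `(0, 1)` of `T`. -/
def cen (t : F) : T := mkT 0 t 1

lemma cen_comm (y : G) (hy : mu y.k = 1) (t : F) : y * (cen t : G) = (cen t : G) * y := by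
  have h0 : (cen t : G) = ⟨0, t, 1, 1⟩ := rfl
  rw [h0]
  refine G.ext ?_ ?_ ?_ ?_
  · simp [act_zero, act_one]
  · simp [act_zero, act_one, B_zero_left, B_zero_right, mu_one, hy, add_comm]
  · simp
  · simp

lemma Phi_even (y : G) (hy : mu y.k = 1) : Phi y = 0 := by
  have hc : ∀ t : T, (cen 1 : G) * (t : G) = (t : G) * (cen 1 : G) := fun t =>
    (cen_comm (t : G) (by rw [T_k, mu_one]) 1).symm
  have hcy := cen_comm y hy 1
  have key : Phi y = lam (-1) * Phi y := by
    conv_lhs => unfold Phi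
    rw [← Equiv.sum_comp (Equiv.mulRight (cen 1))]
    unfold Phi
    rw [Finset.mul_sum]
    refine Finset.sum_congr rfl fun t _ => ?_
    have e1 : ((Equiv.mulRight (cen 1) t : T) : G) = (t : G) * (cen 1 : G) := rfl
    have e2 : ((t : G) * (cen 1 : G)).h = (t : G).h := by
      change (t : G).h * 1 = _
      rw [mul_one]
    have e3 : y * ((t : G) * (cen 1 : G)) = (t : G) * (cen 1 : G) * y ↔ y * (t : G) = (t : G) * y := by
      rw [← mul_assoc, mul_assoc (t : G), ← hcy, ← mul_assoc]
      exact mul_left_inj _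
    rw [e1, if_congr (and_congr (by rw [e2]) e3) rfl rfl]
    have e4 : (Equiv.mulRight (cen 1) t)⁻¹ = t⁻¹ * cen (-1) := by
      change (t * cen 1)⁻¹ = _
      rw [mul_inv_rev]
      have : (cen 1)⁻¹ = cen (-1) := by decide +kernel
      rw [this]
      apply Subtype.ext
      have := cen_comm ((t⁻¹ : T) : G) (by rw [T_k, mu_one]) (-1)
      exact this.symm
    rw [e4]
    split_ifs
    · exact chi_central _
    · rw [mul_zero]
  have h1 : (1 - lam (-1)) * Phi y = 0 := by linear_combination key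
  rcases mul_eq_zero.mp h1 with h | h
  · exact absurd (by linear_combination -h) lam_ne_one
  · exact h

lemma Phi_conj (g : T) (y : G) : Phi ((g : G) * y * (g : G)⁻¹) = Phi y := by
  unfold Phi
  rw [← Equiv.sum_comp (MulAut.conj g).toEquiv]
  refine Finset.sum_congr rfl fun t _ => ?_
  have e1 : (((MulAut.conj g).toEquiv t : T) : G) = (g : G) * (t : G) * (g : G)⁻¹ := rfl
  have e2 : (g : G) * y * (g : G)⁻¹ * ((g : G) * (t : G) * (g : G)⁻¹)
      = (g : G) * (t : G) * (g : G)⁻¹ * ((g : G) * y * (g : G)⁻¹) ↔ y * (t : G) = (t : G) * y := by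
    constructor
    · intro h
      have : (g : G) * (y * (t : G)) * (g : G)⁻¹ = (g : G) * ((t : G) * y) * (g : G)⁻¹ := by
        calc (g : G) * (y * (t : G)) * (g : G)⁻¹
            = (g : G) * y * (g : G)⁻¹ * ((g : G) * (t : G) * (g : G)⁻¹) := by group
          _ = _ := h
          _ = _ := by group
      exact mul_left_cancel (mul_right_cancel this)
    · intro h
      calc (g : G) * y * (g : G)⁻¹ * ((g : G) * (t : G) * (g : G)⁻¹)
          = (g : G) * (y * (t : G)) * (g : G)⁻¹ := by group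
        _ = (g : G) * ((t : G) * y) * (g : G)⁻¹ := by rw [h]
        _ = _ := by group
  have e3 : ((g : G) * (t : G) * (g : G)⁻¹).h = (g : G).h * (t : G).h * (g : G).h⁻¹ := rfl
  have e4 : (g : G).h * (t : G).h * (g : G).h⁻¹ * ((g : G).h * (t : G).h * (g : G).h⁻¹)
      * ((g : G).h * (t : G).h * (g : G).h⁻¹) = 1 ↔ (t : G).h * (t : G).h * (t : G).h = 1 := by
    have : (g : G).h * (t : G).h * (g : G).h⁻¹ * ((g : G).h * (t : G).h * (g : G).h⁻¹)
      * ((g : G).h * (t : G).h * (g : G).h⁻¹)
      = (g : G).h * ((t : G).h * (t : G).h * (t : G).h) * (g : G).h⁻¹ := by group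
    rw [this]
    exact conj_eq_one_iff
  rw [e1, if_congr (and_congr (by rw [e3, e4]) e2) rfl rfl]
  have e5 : ((MulAut.conj g).toEquiv t)⁻¹ = g * t⁻¹ * g⁻¹ := by
    change (g * t * g⁻¹)⁻¹ = _
    group
  rw [e5, chi_conj]

/-- Minus the identity. -/
def negS : S := ⟨-1, 0, 0, -1, by decide⟩

lemma negS_comm : ∀ h : S, negS * h = h * negS := by decide +kernel

lemma fix_zero_one : ∀ k : C4, mu k = -1 → ∀ w : W, act 1 k w = w → w = 0 := by decide +kernel

lemma fix_zero_neg : ∀ k : C4, mu k = -1 → ∀ w : W, act negS k w = w → w = 0 := by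
  decide +kernel

lemma sum_S : ∑ h : S, (if h * h * h = 1 then (if h = 1 then 9 else -3) else 0 : ℤ) = -15 := by
  decide +kernel

lemma F_neg_eq : ∀ z : F, -z = z → z = 0 := by decide

lemma Phi_base (σ : S) (k : C4) (hk : mu k = -1) (hσ : σ = 1 ∨ σ = negS) :
    Phi ⟨0, 0, σ, k⟩ = -15 := by
  have hfix : ∀ w : W, act σ k w = w → w = 0 := by
    rcases hσ with rfl | rfl
    · exact fix_zero_one k hk
    · exact fix_zero_neg k hk
  have hcomm : ∀ h : S, σ * h = h * σ := by
    rcases hσ with rfl | rfl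
    · intro h; rw [one_mul, mul_one]
    · exact negS_comm
  have h2 : ∑ h : S, ((if h * h * h = 1 then (if h = 1 then 9 else -3) else 0 : ℤ) : ℂ) = -15 := by
    rw [← Int.cast_sum, sum_S]; norm_num
  rw [← h2]
  unfold Phi
  symm
  refine Fintype.sum_of_injective (fun h : S => mkT 0 0 h) ?_ _ _ ?_ ?_
  · intro h h' e
    exact congrArg (fun t : T => (t : G).h) e
  · intro t ht
    rw [if_neg]
    rintro ⟨-, hc⟩
    apply ht
    have hw := congrArg G.w hc
    have hz := congrArg G.z hc
    simp only [G.mul_w, G.mul_z, zero_add, act_zero, add_zero, hk, B_zero_left, B_zero_right,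
      mul_zero] at hw hz
    have hw' := hfix _ hw
    have hz' := F_neg_eq (t : G).z (by linear_combination hz)
    refine ⟨(t : G).h, ?_⟩
    apply Subtype.ext
    exact G.ext hw'.symm hz'.symm rfl (T_k t).symm
  · intro h
    have hcond : ((mkT 0 0 h : G).h * (mkT 0 0 h : G).h * (mkT 0 0 h : G).h = 1 ∧
        (⟨0, 0, σ, k⟩ : G) * (mkT 0 0 h : G) = (mkT 0 0 h : G) * ⟨0, 0, σ, k⟩) ↔ h * h * h = 1 := by
      constructor
      · exact fun e => e.1
      · intro e
        refine ⟨e, ?_⟩
        have e0 : (mkT 0 0 h : G) = ⟨0, 0, h, 1⟩ := rfl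
        rw [e0]
        refine G.ext ?_ ?_ ?_ ?_
        · simp [act_zero]
        · simp [act_zero, B_zero_left]
        · simp [hcomm]
        · simp
    rw [if_congr hcond rfl rfl]
    have hinv : (mkT 0 0 h)⁻¹ = mkT 0 0 h⁻¹ := by
      apply Subtype.ext
      change ((mkT 0 0 h : T) : G)⁻¹ = _
      refine G.ext ?_ ?_ ?_ ?_
      · simp [mkT, act_zero]
      · simp [mkT]
      · simp [mkT]
      · simp [mkT]
    rw [hinv]
    by_cases h3 : h * h * h = 1
    · by_cases h1 : h = 1
      · rw [if_pos h3, if_pos h3, if_pos h1, h1, inv_one, chi_of_one _ rfl]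
        change _ = if (0 : W) = 0 then 9 * lam 0 else 0
        rw [if_pos rfl, lam_zero]
        norm_num
      · rw [if_pos h3, if_pos h3, if_neg h1, chi_three]
        · norm_num
        · calc h⁻¹ * h⁻¹ * h⁻¹ = (h * h * h)⁻¹ := by group
            _ = 1 := by rw [h3, inv_one]
        · intro e; exact h1 (inv_eq_one.mp e)
    · rw [if_neg h3, if_neg h3]; norm_num

/-- Elements outside `T` over `σ = ±1` are conjugate to `(0, 0; σ, k)` under `V`. -/
lemma conj_base (σ : S) (k : C4) (hk : mu k = -1) (hσ : σ = 1 ∨ σ = negS) (w : W) (z : F) :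
    ∃ g : T, (⟨w, z, σ, k⟩ : G) = (g : G) * ⟨0, 0, σ, k⟩ * (g : G)⁻¹ := by
  have hsq : ∀ w : W, act σ k (act σ k w) = -w := by
    intro w
    rw [← act_mul]
    have h1 : σ * σ = 1 := by rcases hσ with rfl | rfl <;> decide
    have h2 : ∀ k : C4, mu k = -1 → ∀ w : W, act 1 (k * k) w = -w := by decide +kernel
    rw [h1]
    exact h2 k hk w
  set gw : W := -(w + act σ k w) with hgw
  refine ⟨mkT gw (2 * (z + B w (act σ k gw))) 1, ?_⟩
  rw [eq_mul_inv_iff_mul_eq]
  have e3 : ∀ x : F, 2 * x = -x := by decide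
  have e1 : act σ k gw = -(act σ k w) + w := by
    rw [hgw, act_neg, act_add, hsq]; abel
  have e2 : ∀ x : W, x + x + x = 0 := by decide +kernel
  refine G.ext ?_ ?_ ?_ ?_
  · change w + act σ k gw = gw + act 1 1 0
    rw [act_zero, add_zero, e1, hgw]
    have := e2 w
    calc w + (-act σ k w + w) = (w + w + w) + (-(w + act σ k w)) := by abel
      _ = _ := by rw [this, zero_add]
  · change z + mu k * (2 * (z + B w (act σ k gw))) + B w (act σ k gw)
      = 2 * (z + B w (act σ k gw)) + mu 1 * 0 + B gw (act 1 1 0)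
    rw [act_zero, B_zero_right, hk]
    have := e3 (z + B w (act σ k gw))
    rw [this]
    have h3 : (3 : F) = 0 := by decide
    linear_combination (z + B w (act σ k gw)) * h3
  · change σ * 1 = 1 * σ
    rw [one_mul, mul_one]
  · change k * 1 = 1 * k
    rw [one_mul, mul_one]

lemma Phi_scalar (σ : S) (k : C4) (hk : mu k = -1) (hσ : σ = 1 ∨ σ = negS) (w : W) (z : F) :
    Phi ⟨w, z, σ, k⟩ = -15 := by
  obtain ⟨g, hg⟩ := conj_base σ k hk hσ w z
  rw [hg, Phi_conj, Phi_base σ k hk hσ]

lemma cent_four : ∀ σ : S, σ * σ = negS → ∀ h : S, h * h * h = 1 → σ * h = h * σ → h = 1 := by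
  decide +kernel

lemma Phi_four (σ : S) (k : C4) (hk : mu k = -1) (hσ : σ * σ = negS) (w : W) (z : F) :
    Phi ⟨w, z, σ, k⟩ = 9 := by
  unfold Phi
  rw [Finset.sum_eq_single (1 : T)]
  · rw [if_pos]
    · rw [inv_one, chi_of_one _ rfl]
      change (if (0 : W) = 0 then 9 * lam 0 else 0) = _
      rw [if_pos rfl, lam_zero, mul_one]
    · refine ⟨?_, ?_⟩
      · change (1 : S) * 1 * 1 = 1
        rw [one_mul, one_mul]
      · change (⟨w, z, σ, k⟩ : G) * 1 = 1 * ⟨w, z, σ, k⟩
        rw [one_mul, mul_one]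
  · intro t _ ht
    split_ifs with hc
    · obtain ⟨h3, hc⟩ := hc
      have hh : (t : G).h = 1 := cent_four σ hσ _ h3 (congrArg G.h hc)
      have hh' : ((t⁻¹ : T) : G).h = 1 := by
        change (t : G).h⁻¹ = 1
        rw [hh, inv_one]
      rw [chi_of_one _ hh']
      split_ifs with hw
      · exfalso
        apply ht
        have hw' : (t : G).w = 0 := by
          have : -act (t : G).h⁻¹ (t : G).k⁻¹ (t : G).w = 0 := hw
          rw [hh, T_k, inv_one, inv_one, act_one] at this
          exact neg_eq_zero.mp this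
        have hz := congrArg G.z hc
        simp only [G.mul_z, hw', act_zero, B_zero_right, hk, hh, T_k, act_one, B_zero_left,
          mu_one] at hz
        have hz' := F_neg_eq (t : G).z (by linear_combination hz)
        apply Subtype.ext
        exact G.ext hw' hz' hh (T_k t)
      · rfl
    · rfl
  · intro h
    exact absurd (Finset.mem_univ _) h

end Pool.Agent.Helper28.PC
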