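import Pool.Agent.Helper28.PC.Base

namespace Pool.Agent.Helper28.PC

open Matrix Kronecker

/-- The subgroup `T = V ⋊ SL(2,3)` of `G`. -/
def T : Subgroup G where
  carrier := {x | x.k = 1}
  mul_mem' := by
    intro a b ha hb
    simp only [Set.mem_ofPred_eq] at *
    rw [G.mul_k, ha, hb, one_mul]
  one_mem' := rfl
  inv_mem' := by
    intro a ha
    simp only [Set.mem_ofPred_eq] at *
    rw [G.inv_k, ha, inv_one]

lemma mem_T (x : G) : x ∈ T ↔ x.k = 1 := Iff.rfl

instance : DecidablePred (· ∈ T) := fun x => decEq x.k 1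

/-- Element of `T`. -/
def mkT (w : W) (z : F) (h : S) : T := ⟨⟨w, z, h, 1⟩, rfl⟩

lemma T_k (x : T) : (x : G).k = 1 := x.2

lemma act_k_one (h : S) (w : W) : act h 1 w = (nact h w.1, nact h w.2) := by
  ext <;> simp [act, nact, pp_one, pq_one, pr_one, ps_one]

/-- The unnormalised operator of an element of `T`. -/
def tauE (x : G) : Matrix (F × F) (F × F) E :=
  lamE x.z • (MM x.w.1 x.h ⊗ₖ MM x.w.2 x.h)

lemma tauE_mul (x y : G) (hx : x.k = 1) :
    tauE x * tauE y = kap x.h y.h ^ 2 • tauE (x * y) := by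
  unfold tauE
  rw [Matrix.smul_mul, Matrix.mul_smul, smul_smul, ← Matrix.mul_kronecker_mul, MM_mul, MM_mul,
    Matrix.smul_kronecker, Matrix.kronecker_smul, smul_smul, smul_smul, smul_smul]
  have e1 : (x * y).w.1 = x.w.1 + nact x.h y.w.1 := by
    rw [G.mul_w, hx, act_k_one]; rfl
  have e2 : (x * y).w.2 = x.w.2 + nact x.h y.w.2 := by
    rw [G.mul_w, hx, act_k_one]; rfl
  have e3 : (x * y).z = x.z + y.z + B x.w (nact x.h y.w.1, nact x.h y.w.2) := by
    rw [G.mul_z, hx, act_k_one, mu_one, one_mul]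
  rw [e1, e2, e3, G.mul_h]
  congr 1
  have e4 : B x.w (nact x.h y.w.1, nact x.h y.w.2)
      = 2 * (x.w.1.1 * (nact x.h y.w.1).2 - x.w.1.2 * (nact x.h y.w.1).1)
        + 2 * (x.w.2.1 * (nact x.h y.w.2).2 - x.w.2.2 * (nact x.h y.w.2).1) := by
    unfold B; ring
  rw [e4, lamE_add, lamE_add, lamE_add]
  ring

/-- A primitive cube root of unity. -/
noncomputable def om : ℂ := ⟨-1 / 2, Real.sqrt 3 / 2⟩

lemma om_sq : om * om = -1 - om := by
  have h : Real.sqrt 3 * Real.sqrt 3 = 3 := Real.mul_self_sqrt (by norm_num)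
  apply Complex.ext
  · simp [om]; linear_combination (-1 / 4) * h
  · simp [om]; ring

/-- The embedding of the Eisenstein integers. -/
noncomputable def toC : E →+* ℂ :=
  (QuadraticAlgebra.lift (R := ℤ) (a := -1) (b := -1) ⟨om, by
    rw [om_sq]; simp; ring⟩).toRingHom

lemma toC_apply (z : E) : toC z = (z.re : ℂ) + (z.im : ℂ) * om := by
  simp [toC, QuadraticAlgebra.lift]

lemma sE_ne (b : F) : toC (sE b) ≠ 0 := by
  unfold sE
  split_ifs
  · rw [map_one]; exact one_ne_zero
  · rw [map_neg, map_ofNat]; norm_num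

lemma DM_zero : DM 0 = 1 := by
  ext x y : 1
  simp only [DM, Matrix.of_apply, Matrix.one_apply]
  revert x y
  decide +kernel

lemma KM_one : KM 1 = 1 := by
  ext x y : 1
  simp only [KM, Matrix.of_apply, Matrix.one_apply]
  revert x y
  decide +kernel

lemma MM_one : MM 0 1 = 1 := by
  unfold MM
  rw [DM_zero, KM_one, one_mul]

lemma tauE_one : tauE 1 = 1 := by
  unfold tauE
  have e1 : (1 : G).w.1 = 0 := rfl
  have e2 : (1 : G).w.2 = 0 := rfl
  rw [e1, e2, G.one_h, G.one_z, MM_one, lamE_zero, one_smul, Matrix.one_kronecker_one]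

/-- The matrix representation of `T`. -/
noncomputable def tauM : T →* Matrix (F × F) (F × F) ℂ where
  toFun x := (toC (sE (x : G).h.b))⁻¹ • (tauE (x : G)).map toC
  map_one' := by
    have e : sE ((1 : T) : G).h.b = 1 := by decide +kernel
    rw [e, map_one, inv_one, one_smul]
    change (tauE 1).map toC = 1
    rw [tauE_one, Matrix.map_one _ (map_zero _) (map_one _)]
  map_mul' := by
    intro x y
    have h1 := tauE_mul (x : G) (y : G) (T_k x)
    have h2 := kap_sq (x : G).h (y : G).h
    rw [Matrix.smul_mul, Matrix.mul_smul, smul_smul, ← Matrix.map_mul, h1]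
    have h3 : (kap (x : G).h (y : G).h ^ 2 • tauE ((x : G) * (y : G))).map toC
        = toC (kap (x : G).h (y : G).h ^ 2) • (tauE ((x : G) * (y : G))).map toC := by
      ext i j
      simp
    rw [h3, smul_smul]
    have h4 := congrArg toC h2
    rw [map_mul, map_mul] at h4
    have hx := sE_ne (x : G).h.b
    have hy := sE_ne (y : G).h.b
    have hxy := sE_ne ((x : G).h * (y : G).h).b
    congr 1
    change (toC (sE ((x : G).h * (y : G).h).b))⁻¹ = _
    field_simp
    linear_combination -h4

/-- The representation of `T` of degree nine. -/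
noncomputable def tauR : Representation ℂ T (F × F → ℂ) :=
  (Matrix.toLinAlgEquiv' (R := ℂ) (n := F × F)).toMonoidHom.comp tauM

/-- Its character. -/
noncomputable def chi (x : T) : ℂ := (tauM x).trace

lemma tauR_character (x : T) : tauR.character x = chi x := by
  unfold Representation.character chi
  change LinearMap.trace ℂ _ (Matrix.toLin' (tauM x)) = _
  rw [Matrix.trace_toLin'_eq]

lemma chi_eq (x : T) : chi x = (toC (sE (x : G).h.b))⁻¹ *
    toC (lamE (x : G).z * ((MM (x : G).w.1 (x : G).h).trace * (MM (x : G).w.2 (x : G).h).trace)) := by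
  change ((toC (sE (x : G).h.b))⁻¹ • (tauE (x : G)).map toC).trace = _
  rw [Matrix.trace_smul, smul_eq_mul]
  congr 1
  have : ((tauE (x : G)).map toC).trace = toC ((tauE (x : G)).trace) := by
    simp [Matrix.trace, Matrix.diag]
  rw [this, tauE, Matrix.trace_smul, Matrix.trace_kronecker, smul_eq_mul]

lemma chi_conj (g x : T) : chi (g * x * g⁻¹) = chi x := by
  rw [← tauR_character, ← tauR_character, Representation.char_conj]

lemma MM_one_trace : ∀ u : F × F, (MM u 1).trace = if u = 0 then 3 else 0 := by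
  decide +kernel

lemma MM_three_trace : ∀ h : S, h * h * h = 1 → h ≠ 1 →
    (MM 0 h).trace * (MM 0 h).trace = -3 * sE h.b := by
  decide +kernel

/-- The complex additive character. -/
noncomputable def lam (t : F) : ℂ := toC (lamE t)

lemma lam_add (s t : F) : lam (s + t) = lam s * lam t := by
  unfold lam; rw [lamE_add, map_mul]

lemma lam_zero : lam 0 = 1 := by unfold lam; rw [lamE_zero, map_one]

lemma lam_ne_one : lam (-1) ≠ 1 := by
  unfold lam
  have : lamE (-1) = ⟨-1, -1⟩ := by decide +kernel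
  rw [this, toC_apply]
  intro h
  have := congrArg Complex.im h
  simp [om] at this

lemma chi_of_one (x : T) (h : (x : G).h = 1) :
    chi x = if (x : G).w = 0 then 9 * lam (x : G).z else 0 := by
  rw [chi_eq, h, MM_one_trace, MM_one_trace]
  have e : sE (1 : S).b = 1 := by decide +kernel
  rw [e, map_one, inv_one, one_mul]
  by_cases h1 : (x : G).w.1 = 0
  · by_cases h2 : (x : G).w.2 = 0
    · have h3 : (x : G).w = 0 := Prod.ext h1 h2
      rw [if_pos h1, if_pos h2, if_pos h3, map_mul, map_mul, map_ofNat]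
      unfold lam
      ring
    · have h3 : (x : G).w ≠ 0 := fun e => h2 (by rw [e]; rfl)
      rw [if_neg h2, if_neg h3, mul_zero, mul_zero, map_zero]
  · have h3 : (x : G).w ≠ 0 := fun e => h1 (by rw [e]; rfl)
    rw [if_neg h1, if_neg h3, zero_mul, mul_zero, map_zero]

lemma chi_three (h : S) (h3 : h * h * h = 1) (h1 : h ≠ 1) : chi (mkT 0 0 h) = -3 := by
  rw [chi_eq]
  change (toC (sE h.b))⁻¹ * toC (lamE 0 * ((MM 0 h).trace * (MM 0 h).trace)) = -3
  rw [MM_three_trace h h3 h1, lamE_zero, one_mul, map_mul, map_neg, map_ofNat]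
  have := sE_ne h.b
  field_simp

/-- Multiplying by the central element `(0, 1)`. -/
lemma chi_central (x : T) : chi (x * mkT 0 (-1) 1) = lam (-1) * chi x := by
  have e1 : ((x * mkT 0 (-1) 1 : T) : G).w = (x : G).w := by
    change (x : G).w + act _ _ 0 = _
    rw [act_zero, add_zero]
  have e2 : ((x * mkT 0 (-1) 1 : T) : G).h = (x : G).h := by
    change (x : G).h * 1 = _
    rw [mul_one]
  have e3 : ((x * mkT 0 (-1) 1 : T) : G).z = (x : G).z + -1 := by
    change (x : G).z + mu (x : G).k * (-1) + B (x : G).w (act _ _ 0) = _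
    rw [act_zero, B_zero_right, T_k, mu_one]
    ring
  rw [chi_eq, chi_eq, e1, e2, e3, lamE_add]
  unfold lam
  simp only [map_mul]
  ring

end Pool.Agent.Helper28.PC
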